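import Pool.Agent.Lib.MP_f11a48_ag.SH.RED.Idem
import Pool.Agent.Lib.MP_f11a48_ag.CMM.All

/-!
# PROJECT S0, part RED: the periods (PER) and Legendre's relation (LEG)
-/

set_option autoImplicit false

open Matrix
open Pool.Agent.Lib.MPf11a48.CM (Qbar)
open Pool.Agent.Lib.MPf11a48.GL2T
open Pool.Agent.Lib.MPf11a48.U
open Pool.Agent.Lib.MPf11a48.CMS

namespace Pool.Agent.Lib.MPf11a48.SH.RedM

section

variable {ι : Type} [Fintype ι] [DecidableEq ι] {c : GL ι ℂ} {J : Matrix ι ι ℝ}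
  {ψ : Matrix ι ι ℚ}

/-- An embedding which is not real belongs to a component of rank one. -/
theorem exists_j (S : Str c ψ) {s : EmbC c.1} (hs : ¬ IsBar ψ s s) :
    ∃ j : S.σ, S.ev (Sum.inr j) = s := by
  obtain ⟨e, rfl⟩ := S.ev.surjective s
  rcases e with k | j
  · exact absurd (S.bar_κ k) hs
  · exact ⟨j, rfl⟩

theorem bar_unique (h : HD c J ψ) {s s' s'' : EmbC c.1} (h1 : IsBar ψ s s') (h2 : IsBar ψ s s'') :
    s' = s'' := TORM.isBar_unique CMM.bic' h h1 h2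

/-- The basic relation for a pair of conjugate embeddings. -/
theorem core' (h : HD c J ψ) (S : Str c ψ) {s s' : EmbC c.1} (hs : ¬ IsBar ψ s s)
    (hss : IsBar ψ s s') {v v' : ι → ℂ} (hva : ∀ i, v i ∈ Qbar) (hva' : ∀ i, v' i ∈ Qbar)
    (hv : Eig s v) (hv' : Eig s' v') (i k : ι) :
    (v ᵥ* c.1) i * (v' ᵥ* c.1) k / (2 * Real.pi * Complex.I) ∈ Qbar := by
  obtain ⟨j, rfl⟩ := exists_j S hs
  have h1 : s' = S.ev (Sum.inr (S.τ j)) := bar_unique h hss (S.bar_σ j)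
  subst h1
  exact core h S j hva hva' hv hv' i k

/-- There is an algebraic eigenvector with a non-zero period. -/
theorem exists_vec (S : Str c ψ) (s : EmbC c.1) :
    ∃ v : ι → ℂ, (∀ i, v i ∈ Qbar) ∧ Eig s v ∧ ∃ i, (v ᵥ* c.1) i ≠ 0 := by
  obtain ⟨x, y, hxy⟩ := idem_ne s ⟨S⟩
  refine ⟨fun y => ((idem s x y : Qbar) : ℂ), fun i => (idem s x i).2, idem_eig s ⟨S⟩ x, ?_⟩
  by_contra hcon
  push Not at hcon
  have h1 : (fun y => ((idem s x y : Qbar) : ℂ)) ᵥ* c.1 = 0 := funext hcon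
  have h2 := congrArg (fun w => w ᵥ* c⁻¹.1) h1
  simp only [Matrix.vecMul_vecMul, Matrix.zero_vecMul] at h2
  rw [Units.mul_inv, Matrix.vecMul_one] at h2
  have h3 := congrFun h2 y
  exact hxy (Subtype.ext h3)

end

section

variable {g N : ℕ} {A : AbData g N} {c : GL (Ix g) ℂ} {J : Matrix (Ix g) (Ix g) ℝ}

theorem two_pi_ne : (2 * Real.pi * Complex.I : ℂ) ≠ 0 := Complex.two_pi_I_ne_zero

theorem exists_isPer (h : HD c J A.psi) (S : Str c A.psi)
    (hT : CMM.HalfSet A.psi (Tan A c.1)) : ∃ p, IsPer A c p := by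
  classical
  choose v hva hve iv hiv using fun s : EmbC c.1 => exists_vec S s
  set q : EmbC c.1 → ℂ := fun s => (v s ᵥ* c.1) (iv s) with hq
  have hq0 : ∀ s, q s ≠ 0 := hiv
  set ρ : GalQ := SH.A.RelM.rho with hρd
  have hρ : IsConj ρ := SH.A.RelM.isConj_rho
  have hbar : ∀ s : EmbC c.1, IsBar A.psi s (CMS.act ρ s) := SH.A.RelM.isBar_act hT hρ
  have hbb : ∀ s : EmbC c.1, CMS.act ρ (CMS.act ρ s) = s := fun s => by
    rw [← SH.A.RelM.act_mul, SH.A.RelM.isConj_mul_self hρ, SH.A.RelM.act_one]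
  refine ⟨fun s => if s ∈ Tan A c.1 then q s else
    (2 * Real.pi * Complex.I) / q (CMS.act ρ s), ?_, ?_⟩
  · intro s
    change (if s ∈ Tan A c.1 then q s else (2 * Real.pi * Complex.I) / q (CMS.act ρ s)) ≠ 0
    split_ifs
    · exact hq0 s
    · exact div_ne_zero two_pi_ne (hq0 _)
  · intro s hs w hwa hw i
    have h1 := core' h S hs (hbar s) hwa (hva (CMS.act ρ s)) hw (hve _) i (iv (CMS.act ρ s))
    change (w ᵥ* c.1) i * q (CMS.act ρ s) / (2 * Real.pi * Complex.I) ∈ Qbar at h1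
    change (w ᵥ* c.1) i / (if s ∈ Tan A c.1 then q s else
      (2 * Real.pi * Complex.I) / q (CMS.act ρ s)) ∈ Qbar
    split_ifs with hsT
    · have h2 := core' h S hs (hbar s) (hva s) (hva (CMS.act ρ s)) (hve s) (hve _) (iv s)
        (iv (CMS.act ρ s))
      change q s * q (CMS.act ρ s) / (2 * Real.pi * Complex.I) ∈ Qbar at h2
      have h3 := Qbar.div_mem h1 h2
      have h4 : (w ᵥ* c.1) i / q s = (w ᵥ* c.1) i * q (CMS.act ρ s) / (2 * Real.pi * Complex.I) /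
          (q s * q (CMS.act ρ s) / (2 * Real.pi * Complex.I)) := by
        have := hq0 s
        have := hq0 (CMS.act ρ s)
        have := two_pi_ne
        field_simp
      rw [h4]
      exact h3
    · rw [div_div_eq_mul_div]
      exact h1

theorem leg_of_isPer (h : HD c J A.psi) (S : Str c A.psi) {p : EmbC c.1 → ℂ} (hp : IsPer A c p)
    {s s' : EmbC c.1} (hs : ¬ IsBar A.psi s s) (hs' : ¬ IsBar A.psi s' s')
    (hss : IsBar A.psi s s') : p s * p s' / (2 * Real.pi * Complex.I) ∈ Qbar := by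
  obtain ⟨v, hva, hv, i, hi⟩ := exists_vec S s
  obtain ⟨v', hva', hv', k, hk⟩ := exists_vec S s'
  have h1 := core' h S hs hss hva hva' hv hv' i k
  have h2 := hp.per s hs v hva hv i
  have h3 := hp.per s' hs' v' hva' hv' k
  have h4 := Qbar.div_mem h1 (Qbar.mul_mem h2 h3)
  have h5 : p s * p s' / (2 * Real.pi * Complex.I) =
      (v ᵥ* c.1) i * (v' ᵥ* c.1) k / (2 * Real.pi * Complex.I) /
        ((v ᵥ* c.1) i / p s * ((v' ᵥ* c.1) k / p s')) := by
    have := hp.ne s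
    have := hp.ne s'
    have := two_pi_ne
    field_simp
  rw [h5]
  exact h4

end

end Pool.Agent.Lib.MPf11a48.SH.RedM

namespace Pool.Agent.Lib.MPf11a48.SH

theorem specPER : SpecPER := by
  intro L g N A c _ hL hA hc hGL
  obtain ⟨⟨J, hJ⟩, -⟩ := hda' specTL' L g N A c hL hA hc
  obtain ⟨S⟩ := CMM.str' c J _ hJ hGL
  exact RedM.exists_isPer hJ S (CMM.tan' L g N A c hL hA hc hGL)

theorem specLEG : SpecLEG := by
  intro L g N A c _ hL hA hc hGL p hp s s' hs hss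
  obtain ⟨⟨J, hJ⟩, -⟩ := hda' specTL' L g N A c hL hA hc
  obtain ⟨S⟩ := CMM.str' c J _ hJ hGL
  have hT := CMM.tan' L g N A c hL hA hc hGL
  refine RedM.leg_of_isPer hJ S hp hs ?_ hss
  intro h
  have h1 : s' = s := RedM.bar_unique hJ h (hT.2.2.1 _ _ hss)
  subst h1
  exact hs h

end Pool.Agent.Lib.MPf11a48.SH
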