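import Pool.Agent.Lib.MP_f11a48_ag.SH.RED.Piece

/-!
# PROJECT S0, part RED: the relation between four embeddings of the centre (REL), from FACE and EX
-/

set_option autoImplicit false

open Matrix
open Pool.Agent.Lib.MPf11a48.CM (Qbar)
open Pool.Agent.Lib.MPf11a48.GL2T
open Pool.Agent.Lib.MPf11a48.U
open Pool.Agent.Lib.MPf11a48.CMS

namespace Pool.Agent.Lib.MPf11a48.SH.RedM

/-- Every embedding of a number field `K ⊆ Qbar` is the restriction of an automorphism. -/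
theorem exists_gal (K : Sub) (hK : FiniteDimensional ℚ K) (φ : K →+* ℂ) :
    ∃ γ : GalQ, ∀ x : K, ((ap γ (x : Qbar) : Qbar) : ℂ) = φ x := by
  have hint : ∀ x : K, φ x ∈ Qbar := by
    intro x
    have h1 : IsIntegral ℚ x := IsIntegral.of_finite ℚ x
    have h2 : IsIntegral ℚ (φ.toRatAlgHom x) := h1.map φ.toRatAlgHom
    exact (mem_algebraicClosure_iff.2 h2.isAlgebraic)
  obtain ⟨γ, hγ⟩ := CMM.TypM.exists_ext K
    (AlgHom.codRestrict φ.toRatAlgHom Qbar.toSubalgebra hint : K →ₐ[ℚ] Qbar)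
  refine ⟨γ.symm, fun x => ?_⟩
  have h3 := DFunLike.congr_fun hγ x
  exact congrArg (fun y : Qbar => (y : ℂ)) h3

section

variable {ι : Type} [Fintype ι] [DecidableEq ι] {c : GL ι ℂ} {J : Matrix ι ι ℝ}
  {ψ : Matrix ι ι ℚ} {T : Set (EmbC c.1)}

/-- The field generated by the images of embeddings of the centre. -/
theorem exists_field (h : HD c J ψ) (hT : CMM.HalfSet ψ T) {I : Type} [Finite I]
    (s : I → EmbC c.1) :
    ∃ K : Sub, FiniteDimensional ℚ K ∧ (∀ i z, s i z ∈ K) ∧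
      (∀ x ∈ K, ap SH.A.RelM.rho x ∈ K) ∧
      ∀ x ∈ K, ∀ γ : GalQ, ap γ (ap SH.A.RelM.rho x) = ap SH.A.RelM.rho (ap γ x) := by
  set ρ : GalQ := SH.A.RelM.rho with hρd
  have hρ : IsConj ρ := SH.A.RelM.isConj_rho
  let b := Module.finBasis ℚ (CenAlg c.1)
  let X : Set Qbar := Set.range fun q : I × Fin (Module.finrank ℚ (CenAlg c.1)) => s q.1 (b q.2)
  have hXf : X.Finite := Set.finite_range _
  have hmem : ∀ i z, s i z ∈ IntermediateField.adjoin ℚ X := by
    intro i z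
    rw [← b.sum_repr z, map_sum]
    refine sum_mem fun k _ => ?_
    rw [map_smul]
    exact IntermediateField.smul_mem _ (IntermediateField.subset_adjoin ℚ X ⟨(i, k), rfl⟩)
  have hcomm : ∀ (i : I) (z : CenAlg c.1) (γ : GalQ), ap γ (ap ρ (s i z)) = ap ρ (ap γ (s i z)) := by
    intro i z γ
    have h1 := hT.2.2.2.2.1 γ _ _ (SH.A.RelM.isBar_act hT hρ (s i))
    have h2 := SH.A.RelM.isBar_act hT hρ (CMS.act γ (s i))
    have h3 : CMS.act γ (CMS.act ρ (s i)) = CMS.act ρ (CMS.act γ (s i)) := hT.2.1 _ _ _ h1 h2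
    exact DFunLike.congr_fun h3 z
  have hbarK : ∀ (i : I) (z : CenAlg c.1), ap ρ (s i z) ∈ IntermediateField.adjoin ℚ X := by
    intro i z
    have h1 := SH.A.RelM.isBar_act hT hρ (s i)
    have h2 := h1 z ⟨adj ψ z.1, TORM.adj_cen CMM.bic' h z.2⟩ rfl
    have h3 : ap ρ (s i z) = s i ⟨adj ψ z.1, TORM.adj_cen CMM.bic' h z.2⟩ := h2
    rw [h3]
    exact hmem _ _
  refine ⟨IntermediateField.adjoin ℚ X, ?_, hmem, ?_, ?_⟩
  · have := hXf.to_subtype
    exact IntermediateField.finiteDimensional_adjoin fun x _ =>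
      (Algebra.IsAlgebraic.isAlgebraic x).isIntegral
  · intro x hx
    induction hx using IntermediateField.adjoin_induction with
    | mem x hx =>
      obtain ⟨q, rfl⟩ := hx
      exact hbarK _ _
    | algebraMap q =>
      have h1 : ap ρ (algebraMap ℚ Qbar q) = algebraMap ℚ Qbar q :=
        AlgHom.commutes (AlgEquiv.toAlgHom ρ) q
      rw [h1]
      exact IntermediateField.algebraMap_mem _ q
    | add x y _ _ hx hy =>
      have h1 : ap ρ (x + y) = ap ρ x + ap ρ y := map_add (AlgEquiv.toAlgHom ρ) x y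
      rw [h1]
      exact add_mem hx hy
    | inv x _ hx =>
      have h1 : ap ρ x⁻¹ = (ap ρ x)⁻¹ := map_inv₀ (AlgEquiv.toAlgHom ρ) x
      rw [h1]
      exact inv_mem hx
    | mul x y _ _ hx hy =>
      have h1 : ap ρ (x * y) = ap ρ x * ap ρ y := map_mul (AlgEquiv.toAlgHom ρ) x y
      rw [h1]
      exact mul_mem hx hy
  · intro x hx γ
    induction hx using IntermediateField.adjoin_induction with
    | mem x hx =>
      obtain ⟨q, rfl⟩ := hx
      exact hcomm _ _ _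
    | algebraMap q =>
      have h1 : ∀ δ : GalQ, ap δ (algebraMap ℚ Qbar q) = algebraMap ℚ Qbar q :=
        fun δ => AlgHom.commutes (AlgEquiv.toAlgHom δ) q
      rw [h1, h1, h1]
    | add x y _ _ hx hy =>
      have h1 : ∀ (δ : GalQ) (x y : Qbar), ap δ (x + y) = ap δ x + ap δ y :=
        fun δ => map_add (AlgEquiv.toAlgHom δ)
      rw [h1, h1, h1, h1, hx, hy]
    | inv x _ hx =>
      have h1 : ∀ (δ : GalQ) (x : Qbar), ap δ x⁻¹ = (ap δ x)⁻¹ :=
        fun δ => map_inv₀ (AlgEquiv.toAlgHom δ)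
      rw [h1, h1, h1, h1, hx]
    | mul x y _ _ hx hy =>
      have h1 : ∀ (δ : GalQ) (x y : Qbar), ap δ (x * y) = ap δ x * ap δ y :=
        fun δ => map_mul (AlgEquiv.toAlgHom δ)
      rw [h1, h1, h1, h1, hx, hy]

end

/-- The CM type of a vertex of the family. -/
theorem typ_spec {K : Type} [Field K] [NumberField K] {T : Type} [Fintype T] [DecidableEq T]
    {n : ℕ} (F : Fam K T n) (X : Set (Fin n)) (Φ : Set (K →+* ℂ))
    (hconj : ∀ φ, (starRingEnd ℂ).comp φ ∈ Φ ↔ φ ∉ Φ)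
    (h1 : ∀ t, F.sg (Sum.inl t) ∈ Φ) (h2 : ∀ d, F.sg (Sum.inr d) ∈ Φ ↔ d ∉ X) :
    Function.Injective (F.typ X) ∧ ∀ φ, φ ∈ Φ ↔ ∃ v, F.typ X v = φ := by
  classical
  have hl : ∀ t, F.typ X (Sum.inl t) = F.sg (Sum.inl t) := fun t => rfl
  have hr1 : ∀ d, d ∈ X → F.typ X (Sum.inr d) = (starRingEnd ℂ).comp (F.sg (Sum.inr d)) := by
    intro d hd
    change (if d ∈ X then _ else _) = _
    rw [if_pos hd]
  have hr2 : ∀ d, d ∉ X → F.typ X (Sum.inr d) = F.sg (Sum.inr d) := by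
    intro d hd
    change (if d ∈ X then _ else _) = _
    rw [if_neg hd]
  have hcc : ∀ φ : K →+* ℂ, (starRingEnd ℂ).comp ((starRingEnd ℂ).comp φ) = φ := by
    intro φ
    refine RingHom.ext fun x => ?_
    simp
  have hcinj : ∀ φ φ' : K →+* ℂ, (starRingEnd ℂ).comp φ = (starRingEnd ℂ).comp φ' → φ = φ' := by
    intro φ φ' h
    rw [← hcc φ, h, hcc]
  constructor
  · rintro (t | d) (t' | d') h
    · exact F.sg_inj h
    · exfalso
      rw [hl] at h
      by_cases hd : d' ∈ X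
      · rw [hr1 d' hd] at h
        exact F.sg_ne _ _ h
      · rw [hr2 d' hd] at h
        exact absurd (F.sg_inj h) (by simp)
    · exfalso
      rw [hl] at h
      by_cases hd : d ∈ X
      · rw [hr1 d hd] at h
        exact F.sg_ne _ _ h.symm
      · rw [hr2 d hd] at h
        exact absurd (F.sg_inj h) (by simp)
    · by_cases hd : d ∈ X <;> by_cases hd' : d' ∈ X
      · rw [hr1 d hd, hr1 d' hd'] at h
        exact F.sg_inj (hcinj _ _ h)
      · rw [hr1 d hd, hr2 d' hd'] at h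
        exact absurd h.symm (F.sg_ne _ _)
      · rw [hr2 d hd, hr1 d' hd'] at h
        exact absurd h (F.sg_ne _ _)
      · rw [hr2 d hd, hr2 d' hd'] at h
        exact F.sg_inj h
  · intro φ
    constructor
    · intro hφ
      obtain ⟨v, hv | hv⟩ := F.sg_all φ
      · rcases v with t | d
        · exact ⟨Sum.inl t, hv.symm⟩
        · have h3 : d ∉ X := (h2 d).1 (hv ▸ hφ)
          exact ⟨Sum.inr d, (hr2 d h3).trans hv.symm⟩
      · rcases v with t | d
        · rw [hv, hconj] at hφ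
          exact absurd (h1 t) hφ
        · have h3 : d ∈ X := by
            by_contra h4
            rw [hv, hconj] at hφ
            exact hφ ((h2 d).2 h4)
          exact ⟨Sum.inr d, (hr1 d h3).trans hv.symm⟩
    · rintro ⟨v, rfl⟩
      rcases v with t | d
      · exact h1 t
      · by_cases hd : d ∈ X
        · rw [hr1 d hd, hconj, h2]
          exact fun h => h hd
        · rw [hr2 d hd, h2]
          exact hd

end Pool.Agent.Lib.MPf11a48.SH.RedM

namespace Pool.Agent.Lib.MPf11a48.SH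

open RedM in
/-- **REL** from FACE and EX. -/
theorem specREL (hFACE : SpecFACE) (hEX : SpecEX) : SpecREL := by
  classical
  intro L g N A c _ hL hA hc hGL p hp s hnr0 hsT hrel
  obtain ⟨⟨J, hJ⟩, -⟩ := hda' specTL' L g N A c hL hA hc
  obtain ⟨S⟩ := CMM.str' c J _ hJ hGL
  have hT := CMM.tan' L g N A c hL hA hc hGL
  have hnr : ∀ (i : Fin 4) (γ : GalQ), ¬ IsBar A.psi (CMS.act γ (s i)) (CMS.act γ (s i)) :=
    fun i γ => SH.A.RelM.nr_act hT γ (hnr0 i)
  set ρ : GalQ := SH.A.RelM.rho with hρd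
  have hρ : IsConj ρ := SH.A.RelM.isConj_rho
  obtain ⟨K, hKfin, hsK, hρK, hρc⟩ := exists_field hJ hT s
  have : NumberField K := { to_charZero := inferInstance, to_finiteDimensional := hKfin }
  choose G hG using exists_gal K hKfin
  -- complex conjugation of `K`
  have hρρ : ∀ x : Qbar, ap ρ (ap ρ x) = x := by
    intro x
    rw [← SH.A.RelM.ap_mul, SH.A.RelM.isConj_mul_self hρ]
    rfl
  let bar : K ≃+* K :=
    { toFun := fun x => ⟨ap ρ x.1, hρK x.1 x.2⟩
      invFun := fun x => ⟨ap ρ x.1, hρK x.1 x.2⟩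
      left_inv := fun x => Subtype.ext (hρρ x.1)
      right_inv := fun x => Subtype.ext (hρρ x.1)
      map_mul' := fun x y => Subtype.ext (map_mul (AlgEquiv.toAlgHom ρ) x.1 y.1)
      map_add' := fun x y => Subtype.ext (map_add (AlgEquiv.toAlgHom ρ) x.1 y.1) }
  have hbar : ∀ (φ : K →+* ℂ) (x : K), φ (bar x) = (starRingEnd ℂ) (φ x) := by
    intro φ x
    rw [← hG φ, ← hG φ]
    change ((ap (G φ) (ap ρ x.1) : Qbar) : ℂ) = _
    rw [hρc x.1 x.2, hρ]
  -- the types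
  set Φ : Fin 4 → Set (K →+* ℂ) := fun i => {φ | CMS.act (G φ) (s i) ∈ Tan A c.1} with hΦ
  have hΦm : ∀ i φ, φ ∈ Φ i ↔ CMS.act (G φ) (s i) ∈ Tan A c.1 := fun i φ => Iff.rfl
  have hconj : ∀ i φ, (starRingEnd ℂ).comp φ ∈ Φ i ↔ φ ∉ Φ i := by
    intro i φ
    rw [hΦm, hΦm]
    have h1 : CMS.act (G ((starRingEnd ℂ).comp φ)) (s i) = CMS.act (ρ * G φ) (s i) := by
      refine act_eq_of_eq (hsK i) fun x hx => Subtype.ext ?_
      rw [hG _ ⟨x, hx⟩, SH.A.RelM.ap_mul, hρ, hG _ ⟨x, hx⟩]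
      rfl
    rw [h1, SH.A.RelM.act_mul]
    exact SH.A.RelM.mem_rho hT hρ (hnr i _)
  have hrel' : ∀ φ, ((if φ ∈ Φ 0 then 1 else 0) + (if φ ∈ Φ 1 then 1 else 0) : ℕ) =
      (if φ ∈ Φ 2 then 1 else 0) + (if φ ∈ Φ 3 then 1 else 0) := by
    intro φ
    have h := hrel (G φ)
    convert h using 2 <;> exact if_congr (hΦm _ φ) rfl rfl
  set ι0 : K →+* ℂ := (algebraMap Qbar ℂ).comp (algebraMap K Qbar) with hι0
  have hact0 : ∀ i, CMS.act (G ι0) (s i) = s i := by
    intro i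
    rw [← SH.A.RelM.act_one (s i)]
    have h1 : CMS.act (G ι0) (s i) = CMS.act 1 (s i) := by
      refine act_eq_of_eq (hsK i) fun x hx => Subtype.ext ?_
      rw [hG _ ⟨x, hx⟩]
      rfl
    rw [SH.A.RelM.act_one] at h1 ⊢
    exact h1
  have hid : ∀ i, ι0 ∈ Φ i := by
    intro i
    rw [hΦm, hact0]
    exact hsT i
  -- the places
  let T : Type := {φ : K →+* ℂ // φ ∈ Φ 0 ∧ φ ∈ Φ 1}
  let D : Type := {φ : K →+* ℂ // φ ∈ Φ 0 ∧ φ ∉ Φ 1}
  let n : ℕ := Fintype.card D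
  let e : Fin n ≃ D := (Fintype.equivFin D).symm
  let sg : T ⊕ Fin n → K →+* ℂ := Sum.elim (fun t => t.1) fun d => (e d).1
  have hsg0 : ∀ v, sg v ∈ Φ 0 := by
    rintro (t | d)
    · exact t.2.1
    · exact (e d).2.1
  have hinj : Function.Injective sg := by
    rintro (t | d) (t' | d') h
    · exact congrArg Sum.inl (Subtype.ext h)
    · exfalso
      have h1 : t.1 = (e d').1 := h
      exact (e d').2.2 (h1 ▸ t.2.2)
    · exfalso
      have h1 : (e d).1 = t'.1 := h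
      exact (e d).2.2 (h1 ▸ t'.2.2)
    · have h1 : (e d).1 = (e d').1 := h
      exact congrArg Sum.inr (e.injective (Subtype.ext h1))
  have hne : ∀ v w, sg v ≠ (starRingEnd ℂ).comp (sg w) := by
    intro v w h
    have h1 := hsg0 v
    rw [h, hconj] at h1
    exact h1 (hsg0 w)
  have hall0 : ∀ φ, φ ∈ Φ 0 → ∃ v, φ = sg v := by
    intro φ h0
    by_cases h1 : φ ∈ Φ 1
    · exact ⟨Sum.inl ⟨φ, h0, h1⟩, rfl⟩
    · refine ⟨Sum.inr (e.symm ⟨φ, h0, h1⟩), ?_⟩
      change φ = (e (e.symm ⟨φ, h0, h1⟩)).1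
      rw [Equiv.apply_symm_apply]
  have hall : ∀ φ : K →+* ℂ, ∃ v, φ = sg v ∨ φ = (starRingEnd ℂ).comp (sg v) := by
    intro φ
    by_cases h0 : φ ∈ Φ 0
    · obtain ⟨v, hv⟩ := hall0 φ h0
      exact ⟨v, Or.inl hv⟩
    · obtain ⟨v, hv⟩ := hall0 _ ((hconj 0 φ).2 h0)
      refine ⟨v, Or.inr ?_⟩
      rw [← hv]
      refine RingHom.ext fun x => ?_
      simp
  obtain ⟨F, -, hFs, hFt⟩ := hEX K T n bar sg ⟨ι0, hid 0, hid 1⟩ hbar hinj hne hall
  -- the four pieces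
  have hpiece : ∀ (i : Fin 4) (X : Set (Fin n)), (∀ t, F.sg (Sum.inl t) ∈ Φ i) →
      (∀ d, F.sg (Sum.inr d) ∈ Φ i ↔ d ∉ X) →
      CMPiece A (F.typ X) (fun v => p (CMS.act (G (F.typ X v)) (s i))) := by
    intro i X h1 h2
    obtain ⟨h3, h4⟩ := typ_spec F X (Φ i) (hconj i) h1 h2
    exact piece hL hA hc S hp G hG (hnr i) (hsK i) (F.typ X) h3 h4
  have hl : ∀ t : T, F.sg (Sum.inl t) = t.1 := fun t => by rw [hFs]; rfl
  have hr : ∀ d : Fin n, F.sg (Sum.inr d) = (e d).1 := fun d => by rw [hFs]; rfl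
  have hT2 : ∀ t : T, t.1 ∈ Φ 2 ∧ t.1 ∈ Φ 3 := by
    intro t
    have h1 := hrel' t.1
    rw [if_pos t.2.1, if_pos t.2.2] at h1
    by_cases h2 : t.1 ∈ Φ 2 <;> by_cases h3 : t.1 ∈ Φ 3 <;> simp [h2, h3] at h1 ⊢
  have hD3 : ∀ d : Fin n, (e d).1 ∈ Φ 3 ↔ (e d).1 ∉ Φ 2 := by
    intro d
    have h1 := hrel' (e d).1
    rw [if_pos (e d).2.1, if_neg (e d).2.2] at h1
    by_cases h2 : (e d).1 ∈ Φ 2 <;> by_cases h3 : (e d).1 ∈ Φ 3 <;> simp [h2, h3] at h1 ⊢
  have k1 := hpiece 0 ∅ (fun t => by rw [hl]; exact t.2.1)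
    (fun d => by rw [hr]; exact ⟨fun _ h => h, fun _ => (e d).2.1⟩)
  have k2 := hpiece 1 Set.univ (fun t => by rw [hl]; exact t.2.2)
    (fun d => by rw [hr]; exact ⟨fun h => absurd h (e d).2.2, fun h => absurd (Set.mem_univ d) h⟩)
  set X : Set (Fin n) := {d | (e d).1 ∉ Φ 2} with hX
  have k3 := hpiece 2 X (fun t => by rw [hl]; exact (hT2 t).1)
    (fun d => by rw [hr]; exact ⟨fun h h' => h' h, fun h => not_not.1 h⟩)
  have k4 := hpiece 3 Xᶜ (fun t => by rw [hl]; exact (hT2 t).2)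
    (fun d => by rw [hr, hD3]; exact ⟨fun h h' => h' h, fun h => not_not.1 h⟩)
  have hfin := hFACE L g N A hL hA K T n F X _ _ _ _ k1 k2 k3 k4
  have hval : ∀ (i : Fin 4) (Y : Set (Fin n)),
      p (CMS.act (G (F.typ Y (Sum.inl F.t0))) (s i)) = p (s i) := by
    intro i Y
    have h1 : F.typ Y (Sum.inl F.t0) = ι0 := by
      change F.sg (Sum.inl F.t0) = ι0
      rw [hl, hFt]
    rw [h1, hact0]
  simp only [hval] at hfin
  exact hfin

end Pool.Agent.Lib.MPf11a48.SH
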