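import Pool.Agent.Lib.MP_f11a48_ag.SH.Spec
import Pool.Agent.Lib.MP_f11a48_ag.CMM.Tan
import Pool.Agent.Lib.MP_f11a48_ag.CMM.Galn

/-!
# PROJECT S0, part RED: the basic relation between the periods of `s` and `s̄`

If `v`, `v'` are algebraic eigenvectors for `s` and `s̄` then all products of an entry of `v c` and an
entry of `v' c` are in `2 π i Qbar`.
-/

set_option autoImplicit false

open Matrix
open Pool.Agent.Lib.MPf11a48.CM (Qbar)
open Pool.Agent.Lib.MPf11a48.GL2T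
open Pool.Agent.Lib.MPf11a48.U
open Pool.Agent.Lib.MPf11a48.CMS

namespace Pool.Agent.Lib.MPf11a48.SH.RedM

variable {ι : Type} [Fintype ι] [DecidableEq ι]

theorem isAlg_mul {μ ν κ : Type} [Fintype ν] {A : Matrix μ ν ℂ} {B : Matrix ν κ ℂ} (hA : IsAlg A)
    (hB : IsAlg B) : IsAlg (A * B) := by
  intro i j
  rw [Matrix.mul_apply]
  exact Subfield.sum_mem Qbar.toSubfield fun k _ => Qbar.mul_mem (hA i k) (hB k j)

theorem rat_mem (q : ℚ) : (q : ℂ) ∈ Qbar := Qbar.algebraMap_mem q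

/-- An algebraic matrix which commutes with the commutant of the endomorphisms gives an algebraic
matrix on the de Rham side. -/
theorem isAlg_conj {c : GL ι ℂ} {J : Matrix ι ι ℝ} {ψ : Matrix ι ι ℚ} (h : HD c J ψ)
    {X : Matrix ι ι ℂ} (hX : IsAlg X)
    (hcom : ∀ Z : Matrix ι ι ℚ, Z ∈ ComAlg c.1 → X * mC Z = mC Z * X) :
    IsAlg (c⁻¹.1 * X * c.1) := by
  classical
  let b := Module.Basis.ofVectorSpace ℚ Qbar
  let x : ι → ι → Qbar := fun i j => ⟨X i j, hX i j⟩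
  let U : Finset _ := Finset.univ.biUnion fun p : ι × ι => (b.repr (x p.1 p.2)).support
  let B : _ → Matrix ι ι ℚ := fun k i j => b.repr (x i j) k
  have hBIC : SpecBIC := BicM.specBIC specLIN specDER specSIM
  have hB : ∀ k, B k ∈ EndAlg c.1 := by
    intro k
    refine BicM.commutant_mem specLIN specDER fun Z hZ => ?_
    have hZ' : Z ∈ ComAlg c.1 := by
      rw [(hBIC c J ψ h).2]
      exact Algebra.subset_adjoin hZ
    have h1 := hcom Z hZ'
    ext i j
    have h2 : ∑ l, Z l j • x i l = ∑ l, Z i l • x l j := by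
      apply Subtype.ext
      have h3 := congrFun (congrFun h1 i) j
      rw [Matrix.mul_apply, Matrix.mul_apply] at h3
      have e1 : ((∑ l, Z l j • x i l : Qbar) : ℂ) = ∑ l, X i l * mC Z l j := by
        rw [AddSubmonoidClass.coe_finsetSum]
        refine Finset.sum_congr rfl fun l _ => ?_
        change Z l j • X i l = X i l * (Z l j : ℂ)
        rw [Rat.smul_def, mul_comm]
      have e2 : ((∑ l, Z i l • x l j : Qbar) : ℂ) = ∑ l, mC Z i l * X l j := by
        rw [AddSubmonoidClass.coe_finsetSum]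
        refine Finset.sum_congr rfl fun l _ => ?_
        change Z i l • X l j = (Z i l : ℂ) * X l j
        rw [Rat.smul_def]
      rw [e1, e2, h3]
    have h4 := congrArg (fun y => b.repr y k) h2
    simp only [map_sum, map_smul, Finsupp.coe_finsetSum, Finset.sum_apply, Finsupp.smul_apply,
      smul_eq_mul] at h4
    rw [Matrix.mul_apply, Matrix.mul_apply]
    calc ∑ l, B k i l * Z l j = ∑ l, Z l j * B k i l :=
          Finset.sum_congr rfl fun l _ => mul_comm _ _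
      _ = ∑ l, Z i l * B k l j := h4
  have hXs : X = ∑ k ∈ U, (b k : ℂ) • mC (B k) := by
    ext i j
    have h1 : x i j = ∑ k ∈ U, b.repr (x i j) k • b k := by
      have h2 : (b.repr (x i j)).support ⊆ U :=
        Finset.subset_biUnion_of_mem (fun p : ι × ι => (b.repr (x p.1 p.2)).support)
          (Finset.mem_univ (i, j))
      conv_lhs => rw [← b.linearCombination_repr (x i j)]
      rw [Finsupp.linearCombination_apply]
      exact Finsupp.sum_of_support_subset _ h2 _ fun k _ => zero_smul _ _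
    have h3 : X i j = ((x i j : Qbar) : ℂ) := rfl
    rw [h3, h1, AddSubmonoidClass.coe_finsetSum, Matrix.sum_apply]
    refine Finset.sum_congr rfl fun k _ => ?_
    change b.repr (x i j) k • (b k : ℂ) = (b k : ℂ) * ((B k i j : ℚ) : ℂ)
    rw [Rat.smul_def, mul_comm]
  rw [hXs, Matrix.mul_sum, Matrix.sum_mul]
  intro i j
  rw [Matrix.sum_apply]
  refine Subfield.sum_mem Qbar.toSubfield fun k _ => ?_
  obtain ⟨B', hB', hc⟩ := hB k
  have h5 : c⁻¹.1 * (((b k : Qbar) : ℂ) • mC (B k)) * c.1 = ((b k : Qbar) : ℂ) • B' := by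
    rw [Matrix.mul_smul, Matrix.smul_mul, Matrix.mul_assoc]
    congr 1
    change c⁻¹.1 * ((B k).map (fun x => (x : ℂ)) * c.1) = B'
    rw [← hc, ← Matrix.mul_assoc, Units.inv_mul, Matrix.one_mul]
  rw [h5]
  exact Qbar.mul_mem (b k).2 (hB' i j)

/-- **The basic relation.** -/
theorem core {c : GL ι ℂ} {J : Matrix ι ι ℝ} {ψ : Matrix ι ι ℚ} (h : HD c J ψ) (S : Str c ψ)
    (j : S.σ) {v v' : ι → ℂ} (hva : ∀ i, v i ∈ Qbar) (hva' : ∀ i, v' i ∈ Qbar)
    (hv : Eig (S.ev (Sum.inr j)) v) (hv' : Eig (S.ev (Sum.inr (S.τ j))) v') (i k : ι) :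
    (v ᵥ* c.1) i * (v' ᵥ* c.1) k / (2 * Real.pi * Complex.I) ∈ Qbar := by
  set u : ι → ℂ := mC ψ⁻¹ *ᵥ v' with hu
  have hψ1 : mC ψ * mC ψ⁻¹ = 1 := BicM.mC_mul_inv h.det
  have hψ2 : mC ψ⁻¹ * mC ψ = 1 := BicM.mC_inv_mul h.det
  -- the right eigenvector
  have hΨu : ∀ x y, S.Ψ (x, y) *ᵥ u = y j • u := by
    intro x y
    have h1 := CMM.TanM.eig_Ψ S (S.τ j) hv' (fun k => (x k).adjugate) (fun s => y (S.τ s))
    rw [← S.adj_Ψ, S.τ_τ] at h1
    have h2 : (adj (mC ψ) (S.Ψ (x, y)))ᵀ = mC ψ * S.Ψ (x, y) * mC ψ⁻¹ := by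
      unfold adj
      rw [Matrix.transpose_mul, Matrix.transpose_mul, Matrix.transpose_transpose,
        ← BicM.mC_inv h.det, ← BicM.mC_transpose, ← BicM.mC_transpose, Matrix.transpose_nonsing_inv,
        h.skew]
      have h3 : (-ψ)⁻¹ = -ψ⁻¹ := by
        apply Matrix.inv_eq_left_inv
        rw [neg_mul_neg, Matrix.nonsing_inv_mul _ (isUnit_iff_ne_zero.2 h.det)]
      rw [h3]
      have h4 : mC (-ψ) = -mC ψ := by ext a b; simp [mC]
      have h5 : mC (-ψ⁻¹) = -mC ψ⁻¹ := by ext a b; simp [mC]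
      rw [h4, h5]
      simp [Matrix.mul_assoc]
    rw [← Matrix.mulVec_transpose, h2, ← Matrix.mulVec_mulVec, ← Matrix.mulVec_mulVec] at h1
    have h6 := congrArg (fun w => mC ψ⁻¹ *ᵥ w) h1
    simp only [Matrix.mulVec_mulVec, Matrix.mulVec_smul] at h6
    rw [← Matrix.mul_assoc, ← Matrix.mul_assoc, hψ2, Matrix.one_mul, ← Matrix.mulVec_mulVec] at h6
    exact h6
  have hua : ∀ i, u i ∈ Qbar := fun i =>
    Subfield.sum_mem Qbar.toSubfield fun k _ => Qbar.mul_mem (rat_mem _) (hva' k)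
  set X : Matrix ι ι ℂ := Matrix.vecMulVec u v with hX
  have hXa : IsAlg X := fun a b => Qbar.mul_mem (hua a) (hva b)
  have hcom : ∀ Z : Matrix ι ι ℚ, Z ∈ ComAlg c.1 → X * mC Z = mC Z * X := by
    intro Z hZ
    obtain ⟨⟨x, y⟩, hxy⟩ := (S.mem_range (mC Z)).2 fun B hB => by
      rw [← BicM.mC_mul, ← BicM.mC_mul, (Subalgebra.mem_centralizer_iff ℚ).1 hZ B hB]
    rw [← hxy, hX, Matrix.vecMulVec_mul, Matrix.mul_vecMulVec, hΨu, CMM.TanM.eig_Ψ S j hv]
    ext a b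
    simp [Matrix.vecMulVec_apply]
    ring
  have h7 := isAlg_conj h hXa hcom
  rw [hX, Matrix.mul_vecMulVec, Matrix.vecMulVec_mul] at h7
  obtain ⟨D, hD, hleg⟩ := h.leg
  have h2pi : (2 * Real.pi * Complex.I : ℂ) ≠ 0 := Complex.two_pi_I_ne_zero
  have h8 : D *ᵥ (c⁻¹.1 *ᵥ u) = (2 * Real.pi * Complex.I : ℂ)⁻¹ • (v' ᵥ* c.1) := by
    have h9 : D = (2 * Real.pi * Complex.I : ℂ)⁻¹ • (c.1ᵀ * mC ψ * c.1) := by
      rw [hleg, smul_smul, inv_mul_cancel₀ h2pi, one_smul]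
    rw [h9, Matrix.smul_mulVec, Matrix.mulVec_mulVec, Matrix.mul_assoc (c.1ᵀ * mC ψ),
      Units.mul_inv, Matrix.mul_one, hu, Matrix.mulVec_mulVec, Matrix.mul_assoc, hψ1,
      Matrix.mul_one, Matrix.mulVec_transpose]
  have h10 : (v ᵥ* c.1) i * (v' ᵥ* c.1) k / (2 * Real.pi * Complex.I) =
      ∑ l, D k l * ((c⁻¹.1 *ᵥ u) l * (v ᵥ* c.1) i) := by
    have h11 := congrFun h8 k
    rw [Pi.smul_apply, smul_eq_mul] at h11
    have h12 : (D *ᵥ (c⁻¹.1 *ᵥ u)) k * (v ᵥ* c.1) i =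
        ∑ l, D k l * ((c⁻¹.1 *ᵥ u) l * (v ᵥ* c.1) i) := by
      rw [Matrix.mulVec, dotProduct, Finset.sum_mul]
      exact Finset.sum_congr rfl fun l _ => mul_assoc _ _ _
    rw [← h12, h11]
    field_simp
  rw [h10]
  exact Subfield.sum_mem Qbar.toSubfield fun l _ => Qbar.mul_mem (hD k l) (h7 l i)

end Pool.Agent.Lib.MPf11a48.SH.RedM
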