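import Pool.Agent.Lib.MP_f11a48_ag.SH.RED.Core
import Pool.Agent.Lib.MP_f11a48_ag.SH.A.Rel

/-!
# PROJECT S0, part RED: the idempotents of the centre over `Qbar`
-/

set_option autoImplicit false

open Matrix
open Pool.Agent.Lib.MPf11a48.CM (Qbar)
open Pool.Agent.Lib.MPf11a48.GL2T
open Pool.Agent.Lib.MPf11a48.U
open Pool.Agent.Lib.MPf11a48.CMS

namespace Pool.Agent.Lib.MPf11a48.SH.RedM

variable {ι : Type} [Fintype ι] [DecidableEq ι]

open scoped Classical in
/-- The embeddings separate: there are coefficients for the idempotent of `s`. -/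
theorem exists_coef {c : Matrix ι ι ℂ} (s : EmbC c) :
    ∃ (n : ℕ) (a : Fin n → Qbar) (z : Fin n → CenAlg c), ∀ s' : EmbC c,
      ∑ i, a i * s' (z i) = if s' = s then 1 else 0 := by
  have htop : Submodule.span Qbar (Set.range fun z : CenAlg c => fun s' : EmbC c => s' z) = ⊤ := by
    by_contra hne
    obtain ⟨f, hf, hle⟩ := Submodule.exists_le_ker_of_lt_top _ (lt_top_iff_ne_top.2 hne)
    apply hf
    have hli := linearIndependent_algHom_toLinearMap ℚ (CenAlg c) Qbar
    have hsum : ∑ s' : EmbC c, f (Pi.single s' 1) • (AlgHom.toLinearMap s') = 0 := by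
      refine LinearMap.ext fun z => ?_
      rw [LinearMap.sum_apply, LinearMap.zero_apply]
      have h1 : f (fun s' : EmbC c => s' z) = 0 := hle (Submodule.subset_span ⟨z, rfl⟩)
      have h2 : (fun s' : EmbC c => s' z) = ∑ s' : EmbC c, (s' z) • (Pi.single s' 1 : EmbC c → Qbar) := by
        funext s''
        rw [Finset.sum_apply, Finset.sum_eq_single s'']
        · simp
        · intro b _ hb
          simp [Pi.single_eq_of_ne hb.symm]
        · intro h
          exact absurd (Finset.mem_univ _) h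
      rw [h2, map_sum] at h1
      rw [← h1]
      refine Finset.sum_congr rfl fun s' _ => ?_
      rw [map_smul, smul_eq_mul, LinearMap.smul_apply, smul_eq_mul, mul_comm]
      rfl
    have h3 := Fintype.linearIndependent_iff.1 hli (fun s' => f (Pi.single s' 1)) hsum
    refine LinearMap.ext fun y => ?_
    have h4 : y = ∑ s' : EmbC c, (y s') • (Pi.single s' 1 : EmbC c → Qbar) := by
      funext s''
      rw [Finset.sum_apply, Finset.sum_eq_single s'']
      · simp
      · intro b _ hb
        simp [Pi.single_eq_of_ne hb.symm]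
      · intro h
        exact absurd (Finset.mem_univ _) h
    rw [h4, map_sum, LinearMap.zero_apply]
    refine Finset.sum_eq_zero fun s' _ => ?_
    rw [map_smul, h3 s', smul_zero]
  have hmem : (fun s' : EmbC c => if s' = s then (1 : Qbar) else 0) ∈
      Submodule.span Qbar (Set.range fun z : CenAlg c => fun s' : EmbC c => s' z) := by
    rw [htop]
    exact Submodule.mem_top
  obtain ⟨n, a, g, hg⟩ := Submodule.mem_span_set'.1 hmem
  choose z hz using fun i => (g i).2
  refine ⟨n, a, z, fun s' => ?_⟩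
  have h5 := congrFun hg s'
  rw [Finset.sum_apply] at h5
  rw [← h5]
  refine Finset.sum_congr rfl fun i _ => ?_
  rw [Pi.smul_apply, smul_eq_mul, ← hz i]

/-- The idempotent of `s`. -/
noncomputable def idem {c : Matrix ι ι ℂ} (s : EmbC c) : Matrix ι ι Qbar := fun x y =>
  ∑ i, (exists_coef s).choose_spec.choose i *
    algebraMap ℚ Qbar (((exists_coef s).choose_spec.choose_spec.choose i).1 x y)

section Str

variable {c : GL ι ℂ} {ψ : Matrix ι ι ℚ} (S : Str c ψ)

open scoped Classical in
theorem coef_unique (e : S.κ ⊕ S.σ) {n : ℕ} {a : Fin n → Qbar} {z : Fin n → CenAlg c.1}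
    (h : ∀ s' : EmbC c.1, ∑ i, a i * s' (z i) = if s' = S.ev e then 1 else 0) :
    ∑ i, (a i : ℂ) • mC (z i).1 = TORM.cenL S (Pi.single e 1) := by
  have h1 : ∀ i, mC (z i).1 = TORM.cenL S (TORM.pt S (z i)) := fun i => (TORM.cen_pt S (z i)).symm
  rw [Finset.sum_congr rfl fun i _ => by rw [h1 i, ← map_smul], ← map_sum]
  congr 1
  funext e'
  rw [Finset.sum_apply]
  have h2 := congrArg (fun x : Qbar => (x : ℂ)) (h (S.ev e'))
  rw [AddSubmonoidClass.coe_finsetSum] at h2
  change ∑ i, (a i : ℂ) * ((S.ev e' (z i) : Qbar) : ℂ) = _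
  have h3 : ∑ i, (a i : ℂ) * ((S.ev e' (z i) : Qbar) : ℂ) =
      (((if S.ev e' = S.ev e then 1 else 0 : Qbar)) : ℂ) := h2
  rw [h3]
  by_cases he : e' = e
  · subst he
    simp
  · rw [if_neg fun h => he (S.ev.injective h), Pi.single_eq_of_ne he]
    rfl

open scoped Classical in
theorem idem_coe (e : S.κ ⊕ S.σ) :
    (idem (S.ev e)).map (fun x : Qbar => (x : ℂ)) = TORM.cenL S (Pi.single e 1) := by
  rw [← coef_unique S e (exists_coef (S.ev e)).choose_spec.choose_spec.choose_spec]
  ext x y
  rw [Matrix.map_apply, Matrix.sum_apply]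
  unfold idem
  rw [AddSubmonoidClass.coe_finsetSum]
  refine Finset.sum_congr rfl fun i _ => ?_
  rfl

include S in
theorem idem_act (γ : GalQ) (s : EmbC c.1) (x y : ι) :
    ap γ (idem s x y) = idem (CMS.act γ s) x y := by
  classical
  obtain ⟨e, rfl⟩ := S.ev.surjective s
  obtain ⟨e', he'⟩ := S.ev.surjective (CMS.act γ (S.ev e))
  rw [← he']
  have hc := (exists_coef (S.ev e)).choose_spec.choose_spec.choose_spec
  set n := (exists_coef (S.ev e)).choose with hn
  set a := (exists_coef (S.ev e)).choose_spec.choose with ha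
  set z := (exists_coef (S.ev e)).choose_spec.choose_spec.choose with hz
  have h1 : ∀ s' : EmbC c.1, ∑ i, ap γ (a i) * s' (z i) = if s' = S.ev e' then 1 else 0 := by
    intro s'
    have h2 := hc (CMS.act γ⁻¹ s')
    have h3 := congrArg (ap γ) h2
    have h4 : ap γ (∑ i, a i * (CMS.act γ⁻¹ s') (z i)) = ∑ i, ap γ (a i) * s' (z i) := by
      change (AlgEquiv.toAlgHom γ) (∑ i, a i * (CMS.act γ⁻¹ s') (z i)) = _
      rw [map_sum]
      refine Finset.sum_congr rfl fun i _ => ?_
      rw [map_mul]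
      congr 1
      change ap γ (ap γ⁻¹ (s' (z i))) = s' (z i)
      rw [← A.RelM.ap_mul, mul_inv_cancel]
      rfl
    rw [h4] at h3
    rw [h3]
    by_cases h5 : s' = S.ev e'
    · have h6 : CMS.act γ⁻¹ s' = S.ev e := by rw [h5, he', A.RelM.act_inv_act]
      rw [if_pos h5, if_pos h6]
      exact (AlgEquiv.toAlgHom γ).map_one
    · have h6 : ¬ CMS.act γ⁻¹ s' = S.ev e := by
        intro h
        apply h5
        rw [he', ← h, ← A.RelM.act_mul, mul_inv_cancel, A.RelM.act_one]
      rw [if_neg h5, if_neg h6]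
      exact (AlgEquiv.toAlgHom γ).map_zero
  have h7 := coef_unique S e' h1
  rw [← idem_coe S e'] at h7
  have h8 := congrFun (congrFun h7 x) y
  rw [Matrix.map_apply, Matrix.sum_apply] at h8
  apply Subtype.ext
  rw [← h8]
  have h9 : ap γ (idem (S.ev e) x y) = ∑ i, ap γ (a i) * algebraMap ℚ Qbar ((z i).1 x y) := by
    change (AlgEquiv.toAlgHom γ) (∑ i, a i * algebraMap ℚ Qbar ((z i).1 x y)) = _
    rw [map_sum]
    refine Finset.sum_congr rfl fun i _ => ?_
    rw [map_mul, AlgHom.commutes]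
    rfl
  rw [h9, AddSubmonoidClass.coe_finsetSum]
  rfl

/-- The rows of the idempotent are eigenvectors. -/
theorem idem_eig (s : EmbC c.1) (hS : Nonempty (Str c ψ)) (x : ι) :
    Eig s (fun y => ((idem s x y : Qbar) : ℂ)) := by
  classical
  obtain ⟨S⟩ := hS
  obtain ⟨e, rfl⟩ := S.ev.surjective s
  intro z
  have h1 : TORM.cenL S (Pi.single e 1) * mC z.1 =
      ((S.ev e z : Qbar) : ℂ) • TORM.cenL S (Pi.single e 1) := by
    rw [← TORM.cen_pt, ← TORM.cen_mul, ← map_smul]
    congr 1
    funext e'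
    by_cases h : e' = e
    · subst h
      simp [TORM.pt]
    · simp [Pi.single_eq_of_ne h]
  rw [← idem_coe] at h1
  exact congrFun h1 x

theorem idem_ne (s : EmbC c.1) (hS : Nonempty (Str c ψ)) : ∃ x y, idem s x y ≠ 0 := by
  classical
  obtain ⟨S⟩ := hS
  obtain ⟨e, rfl⟩ := S.ev.surjective s
  by_contra hcon
  push Not at hcon
  have h1 : TORM.cenL S (Pi.single e 1) = 0 := by
    rw [← idem_coe]
    ext x y
    rw [Matrix.map_apply, hcon x y]
    rfl
  have h2 : (Pi.single e 1 : S.κ ⊕ S.σ → ℂ) = 0 := TORM.cen_inj S (by rw [h1, map_zero])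
  have h3 := congrFun h2 e
  simp at h3

end Str

end Pool.Agent.Lib.MPf11a48.SH.RedM
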