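import Pool.Agent.Lib.MP_f11a48_ag.SH.RED.TanNe

/-!
# PROJECT S0, part RED: the CM pieces of an abelian variety
-/

set_option autoImplicit false

open Matrix
open Pool.Agent.Lib.MPf11a48.CM (Qbar)
open Pool.Agent.Lib.MPf11a48.GL2T
open Pool.Agent.Lib.MPf11a48.U
open Pool.Agent.Lib.MPf11a48.CMS

namespace Pool.Agent.Lib.MPf11a48.SH.RedM

/-- An algebraic number which is fixed by all automorphisms is rational. -/
theorem rat_of_fixed (x : Qbar) (h : ∀ γ : GalQ, ap γ x = x) : ∃ q : ℚ, (q : ℂ) = (x : ℂ) := by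
  have hg : IsGalois ℚ Qbar := ⟨⟩
  have h1 := (InfiniteGalois.mem_bot_iff_fixed (k := ℚ) (K := Qbar) x).2 h
  obtain ⟨q, hq⟩ := IntermediateField.mem_bot.1 h1
  exact ⟨q, by rw [← hq]; rfl⟩

theorem act_eq_of_eq {ι : Type} [Fintype ι] [DecidableEq ι] {c : Matrix ι ι ℂ} {s : EmbC c}
    {K : Sub} (hs : ∀ z, s z ∈ K) {γ δ : GalQ} (h : ∀ x ∈ K, ap γ x = ap δ x) :
    CMS.act γ s = CMS.act δ s :=
  AlgHom.ext fun z => h (s z) (hs z)

section

variable {g N : ℕ} {A : AbData g N} {c : GL (Ix g) ℂ} {L : IntermediateField ℚ ℂ}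

/-- The trace of an element with Galois conjugates given by the eigenprojectors is rational. -/
theorem sum_rat (S : Str c A.psi) {K : Sub} [NumberField K] (G : (K →+* ℂ) → GalQ)
    (hG : ∀ φ (x : K), ((ap (G φ) (x : Qbar) : Qbar) : ℂ) = φ x) {s : EmbC c.1}
    (hs : ∀ z, s z ∈ K) (x l : Ix g) (z : K) :
    ∃ q : ℚ, (q : ℂ) = ∑ ψ : K →+* ℂ, ψ z * ((idem (CMS.act (G ψ) s) x l : Qbar) : ℂ) := by
  set t : (K →+* ℂ) → Qbar := fun ψ => ap (G ψ) ((z : Qbar) * idem s x l) with ht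
  have ht1 : ∀ ψ, ((t ψ : Qbar) : ℂ) = ψ z * ((idem (CMS.act (G ψ) s) x l : Qbar) : ℂ) := by
    intro ψ
    have h1 : t ψ = ap (G ψ) (z : Qbar) * ap (G ψ) (idem s x l) :=
      map_mul (AlgEquiv.toAlgHom (G ψ)) _ _
    rw [h1, idem_act S, ← hG ψ z]
    rfl
  have hsame : ∀ γ δ : GalQ, (∀ x ∈ K, ap γ x = ap δ x) →
      ap γ ((z : Qbar) * idem s x l) = ap δ ((z : Qbar) * idem s x l) := by
    intro γ δ h
    have h1 : ∀ ε : GalQ, ap ε ((z : Qbar) * idem s x l) =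
        ap ε (z : Qbar) * idem (CMS.act ε s) x l := by
      intro ε
      rw [← idem_act S]
      exact map_mul (AlgEquiv.toAlgHom ε) _ _
    rw [h1, h1, act_eq_of_eq hs h, h _ z.2]
  obtain ⟨q, hq⟩ := rat_of_fixed (∑ ψ, t ψ) fun γ => by
    -- the action of `γ` on the embeddings
    let a : (K →+* ℂ) → (K →+* ℂ) := fun ψ =>
      (algebraMap Qbar ℂ).comp ((AlgEquiv.toAlgHom (γ * G ψ) : Qbar →ₐ[ℚ] Qbar).toRingHom.comp
        (algebraMap K Qbar))
    have ha : ∀ ψ (x : K), a ψ x = ((ap γ (ap (G ψ) (x : Qbar)) : Qbar) : ℂ) := fun ψ x => rfl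
    have hinj : Function.Injective a := by
      intro ψ ψ' h
      refine RingHom.ext fun x => ?_
      have h1 := DFunLike.congr_fun h x
      rw [ha, ha] at h1
      have h2 : ap (G ψ) (x : Qbar) = ap (G ψ') (x : Qbar) :=
        (AlgEquiv.toEquiv γ).injective (Subtype.ext h1)
      rw [← hG ψ x, ← hG ψ' x, h2]
    have hbij : Function.Bijective a := Finite.injective_iff_bijective.1 hinj
    have h3 : ap γ (∑ ψ, t ψ) = ∑ ψ, t (a ψ) := by
      change (AlgEquiv.toAlgHom γ) (∑ ψ, t ψ) = _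
      rw [map_sum]
      refine Finset.sum_congr rfl fun ψ _ => ?_
      change ap γ (ap (G ψ) _) = ap (G (a ψ)) _
      rw [← SH.A.RelM.ap_mul]
      refine hsame _ _ fun x hx => Subtype.ext ?_
      have h4 := hG (a ψ) ⟨x, hx⟩
      rw [ha] at h4
      exact h4.symm
    rw [h3]
    exact hbij.sum_comp t
  refine ⟨q, ?_⟩
  rw [hq, AddSubmonoidClass.coe_finsetSum]
  exact Finset.sum_congr rfl fun ψ _ => ht1 ψ

/-- **The CM pieces.** -/
theorem piece (hL : L ≤ Qbar) (hA : A.IsAbVar L) (hc : c.1 = A.per) (S : Str c A.psi)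
    {p : EmbC c.1 → ℂ} (hp : IsPer A c p) {K : Sub} [NumberField K] (G : (K →+* ℂ) → GalQ)
    (hG : ∀ φ (x : K), ((ap (G φ) (x : Qbar) : Qbar) : ℂ) = φ x) {s : EmbC c.1}
    (hnr : ∀ γ : GalQ, ¬ IsBar A.psi (CMS.act γ s) (CMS.act γ s))
    (hs : ∀ z, s z ∈ K) {V : Type} [Fintype V] (φ : V → K →+* ℂ) (hφ : Function.Injective φ)
    (hT : ∀ ψ : K →+* ℂ, CMS.act (G ψ) s ∈ Tan A c.1 ↔ ∃ v, φ v = ψ) :
    CMPiece A φ (fun v => p (CMS.act (G (φ v)) s)) := by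
  classical
  obtain ⟨x, y, hxy⟩ := idem_ne s ⟨S⟩
  set vec : (K →+* ℂ) → Ix g → ℂ := fun ψ l => ((idem (CMS.act (G ψ) s) x l : Qbar) : ℂ) with hvec
  have hve : ∀ ψ, Eig (CMS.act (G ψ) s) (vec ψ) := fun ψ => idem_eig _ ⟨S⟩ x
  have hva : ∀ ψ i, vec ψ i ∈ Qbar := fun ψ i => (idem (CMS.act (G ψ) s) x i).2
  have hvn : ∀ ψ, vec ψ ≠ 0 := by
    intro ψ h
    have h1 := congrFun h y
    have h2 : idem (CMS.act (G ψ) s) x y = 0 := Subtype.ext h1
    rw [← idem_act S] at h2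
    exact hxy ((AlgEquiv.toEquiv (G ψ)).injective (h2.trans (map_zero (AlgEquiv.toAlgHom (G ψ))).symm))
  set Lv : (K →+* ℂ) → Fin g → ℂ := fun ψ => ∑ l, vec ψ l • A.lat l with hLv
  have hLper : ∀ ψ j, Lv ψ j = (vec ψ ᵥ* c.1) (Sum.inl j) := by
    intro ψ j
    change (∑ l, vec ψ l • A.lat l) j = _
    rw [Finset.sum_apply, hc]
    rfl
  refine ⟨fun v => hp.ne _, fun v => (p (CMS.act (G (φ v)) s))⁻¹ • Lv (φ v), fun v => ?_,
    fun v j => ?_, fun z => ?_⟩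
  · refine smul_ne_zero (inv_ne_zero (hp.ne _)) ?_
    obtain ⟨j, hj⟩ := exists_j S (hnr (G (φ v)))
    have h1 := (hT (φ v)).2 ⟨v, rfl⟩
    have h2 := hve (φ v)
    rw [← hj] at h1 h2
    exact tan_ne hL hA hc S j h1 (hvn _) h2
  · change (p (CMS.act (G (φ v)) s))⁻¹ * Lv (φ v) j ∈ Qbar
    rw [hLper, mul_comm, ← div_eq_mul_inv]
    exact hp.per _ (hnr _) _ (hva _) (hve _) _
  · choose q hq using fun l => sum_rat S G hG hs x l z
    refine ⟨q, ?_⟩
    have h1 : ∀ v, (p (CMS.act (G (φ v)) s) * φ v z) • (p (CMS.act (G (φ v)) s))⁻¹ • Lv (φ v) =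
        φ v z • Lv (φ v) := by
      intro v
      rw [smul_smul]
      congr 1
      have := hp.ne (CMS.act (G (φ v)) s)
      field_simp
    rw [Finset.sum_congr rfl fun v _ => h1 v]
    have h2 : ∑ v, φ v z • Lv (φ v) = ∑ ψ : K →+* ℂ, ψ z • Lv ψ := by
      rw [← Finset.sum_image (f := fun ψ : K →+* ℂ => ψ z • Lv ψ) (s := Finset.univ) (g := φ)
        fun v _ w _ h => hφ h]
      refine Finset.sum_subset (Finset.subset_univ _) fun ψ _ hψ => ?_
      have h3 : ¬ CMS.act (G ψ) s ∈ Tan A c.1 := by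
        rw [hT]
        rintro ⟨v, rfl⟩
        exact hψ (Finset.mem_image_of_mem _ (Finset.mem_univ v))
      have h4 : Lv ψ = 0 := by
        by_contra h5
        exact h3 ⟨vec ψ, hve ψ, h5⟩
      rw [h4, smul_zero]
    rw [h2]
    have h6 : ∀ ψ : K →+* ℂ, ψ z • Lv ψ = ∑ l, (ψ z * vec ψ l) • A.lat l := by
      intro ψ
      rw [hLv, Finset.smul_sum]
      exact Finset.sum_congr rfl fun l _ => by rw [smul_smul]
    rw [Finset.sum_congr rfl fun ψ _ => h6 ψ, Finset.sum_comm]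
    refine Finset.sum_congr rfl fun l _ => ?_
    rw [← Finset.sum_smul, hq l]

end

end Pool.Agent.Lib.MPf11a48.SH.RedM
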