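import Pool.Agent.Lib.MP_f11a48_ag.SH.RED.Per

/-!
# PROJECT S0, part RED: eigenvectors for embeddings which occur in the tangent space
-/

set_option autoImplicit false

open Matrix
open Pool.Agent.Lib.MPf11a48.CM (Qbar)
open Pool.Agent.Lib.MPf11a48.GL2T
open Pool.Agent.Lib.MPf11a48.U
open Pool.Agent.Lib.MPf11a48.CMS

namespace Pool.Agent.Lib.MPf11a48.SH.RedM

open Pool.Agent.Lib.MPf11a48.CMM.TanM in
/-- If `s` occurs in the tangent space then every non-zero eigenvector has a non-zero image. -/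
theorem tan_ne {g N : ℕ} {A : AbData g N} {c : GL (Ix g) ℂ} {L : IntermediateField ℚ ℂ}
    (hL : L ≤ Qbar) (hA : A.IsAbVar L) (hc : c.1 = A.per) (S : Str c A.psi) (j : S.σ)
    (hs : S.ev (Sum.inr j) ∈ Tan A c.1) {v : Ix g → ℂ} (hv0 : v ≠ 0)
    (hv : Eig (S.ev (Sum.inr j)) v) : ∑ l, v l • A.lat l ≠ 0 := by
  have hTP : SpecTP := by
    intro Z T Θ Λ _ _ _ _ D
    exact tp' specTL' D
  have hPROD : SpecPROD := by
    intro Z T Θ Λ Z' T' Θ' Λ' _ _ _ _ _ _ _ _ D D'
    exact specPROD D D'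
  set J := HDAM.JM A.lat hA.lat_indep with hJ
  set JC : Matrix (Ix g) (Ix g) ℂ := J.map (fun x => (x : ℂ)) with hJC
  have hG := specGROW L g N A c hL hA hc
  have hmul : ∀ X Y : Matrix (Ix g) (Ix g) ℝ,
      (X * Y).map (fun x => (x : ℂ)) = X.map (fun x => (x : ℂ)) * Y.map (fun x => (x : ℂ)) :=
    fun X Y => Matrix.map_mul (f := Complex.ofRealHom) (L := X) (M := Y)
  have hcomm : ∀ B ∈ EndAlg c.1, JC * mC B = mC B * JC := by
    intro B hB
    have h1 := HDAM.endo_comm hTP hPROD hG hA hc hB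
    have h2 : (mR B).map (fun x => (x : ℂ)) = mC B := by
      ext i j
      simp [mR, mC]
    have h3 := congrArg (fun M : Matrix (Ix g) (Ix g) ℝ => M.map (fun x => (x : ℂ))) h1
    simp only [hmul, h2] at h3
    exact h3
  obtain ⟨⟨x, y⟩, hxy⟩ := (S.mem_range JC).2 hcomm
  have hII : Complex.I ≠ -Complex.I := by
    intro h
    have h1 := congrArg Complex.im h
    simp at h1
    norm_num at h1
  have hy : y j = Complex.I := by
    obtain ⟨v₀, hv₀, hne⟩ := hs
    have h1 := eig_Ψ S j hv₀ x y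
    rw [hxy] at h1
    have h3 : Lc A.lat (v₀ ᵥ* JC) = Complex.I • Lc A.lat v₀ := Lc_J A.lat hA.lat_indep v₀
    rw [h1, Lc_smul] at h3
    exact smul_left_injective ℂ (show Lc A.lat v₀ ≠ 0 from hne) h3
  intro h0
  apply hv0
  apply Lc_zero A.lat hA.lat_indep v h0
  have h1 := eig_Ψ S j hv x y
  rw [hxy, hy] at h1
  set w : Ix g → ℂ := fun l => (starRingEnd ℂ) (v l) with hw
  have h2 : w ᵥ* JC = (-Complex.I) • w := by
    funext b
    have h3 := congrArg (starRingEnd ℂ) (congrFun h1 b)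
    simp only [Matrix.vecMul, dotProduct, map_sum, map_mul, Pi.smul_apply, smul_eq_mul,
      Complex.conj_I] at h3
    simp only [Matrix.vecMul, dotProduct, Pi.smul_apply, smul_eq_mul, hw]
    rw [← h3]
    refine Finset.sum_congr rfl fun a _ => ?_
    rw [hJC, Matrix.map_apply, Complex.conj_ofReal]
  have h3 : Lc A.lat (w ᵥ* JC) = Complex.I • Lc A.lat w := Lc_J A.lat hA.lat_indep w
  rw [h2, Lc_smul] at h3
  by_contra hne
  exact hII (smul_left_injective ℂ hne h3).symm

end Pool.Agent.Lib.MPf11a48.SH.RedM
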